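import Pool.Agent.H484.HH.Stm

/-!
HH-HAL (helper261): elementary intervals for the radical inverse.
-/

set_option autoImplicit false

open Finset

namespace Pool.Agent.H484.HH

noncomputable section

namespace HAL

theorem digit_zero {b m j : ℕ} (hb : 2 ≤ b) (h : m ≤ j) : m / b ^ j % b = 0 := by
  have h1 : m < b ^ j := lt_of_le_of_lt h (Nat.lt_pow_self hb)
  rw [Nat.div_eq_of_lt h1, Nat.zero_mod]

theorem radInv_ext {b : ℕ} (hb : 2 ≤ b) (m J : ℕ) (h : m ≤ J) :
    ∑ j ∈ range J, ((m / b ^ j % b : ℕ) : ℝ) / (b : ℝ) ^ (j + 1) = radInv b m := by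
  unfold radInv
  symm
  apply Finset.sum_subset (Finset.range_subset_range.2 h)
  intro j _ hj
  rw [Finset.mem_range, not_lt] at hj
  rw [digit_zero hb hj]
  simp

theorem radInv_rec {b : ℕ} (hb : 2 ≤ b) (n : ℕ) :
    radInv b n = ((n % b : ℕ) + radInv b (n / b)) / b := by
  have hb0 : (b : ℝ) ≠ 0 := by
    have : 0 < b := by omega
    exact_mod_cast this.ne'
  have h1 : radInv b n = ∑ j ∈ range (n + 1), ((n / b ^ j % b : ℕ) : ℝ) / (b : ℝ) ^ (j + 1) :=
    (radInv_ext hb n (n + 1) (Nat.le_succ n)).symm
  rw [h1, Finset.sum_range_succ']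
  have h2 : ∀ j ∈ range n, ((n / b ^ (j + 1) % b : ℕ) : ℝ) / (b : ℝ) ^ (j + 1 + 1) =
      (((n / b) / b ^ j % b : ℕ) : ℝ) / (b : ℝ) ^ (j + 1) / b := by
    intro j _
    have e : n / b ^ (j + 1) = n / b / b ^ j := by
      rw [pow_succ', Nat.div_div_eq_div_mul]
    rw [e, pow_succ (b : ℝ) (j + 1), div_div]
  rw [Finset.sum_congr rfl h2, ← Finset.sum_div, radInv_ext hb (n / b) n (Nat.div_le_self n b)]
  simp only [pow_zero, Nat.div_one, zero_add, pow_one]
  ring

theorem radInv_nonneg (b n : ℕ) : 0 ≤ radInv b n := by
  unfold radInv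
  exact Finset.sum_nonneg fun j _ => by positivity

theorem radInv_lt_one {b : ℕ} (hb : 2 ≤ b) (n : ℕ) : radInv b n < 1 := by
  induction n using Nat.strong_induction_on with
  | _ n ih =>
    rcases Nat.eq_zero_or_pos n with h | h
    · subst h
      simp [radInv]
    · rw [radInv_rec hb n]
      have h1 := ih (n / b) (Nat.div_lt_self h (by omega))
      have hbp : (0 : ℝ) < b := by
        have : 0 < b := by omega
        exact_mod_cast this
      have h2 : ((n % b : ℕ) : ℝ) + 1 ≤ b := by
        have : n % b + 1 ≤ b := Nat.mod_lt n (by omega)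
        exact_mod_cast this
      rw [div_lt_one hbp]
      linarith

theorem one {b : ℕ} (hb : 2 ≤ b) (K : ℕ) : ∀ v : ℝ, 0 ≤ v → v ≤ 1 → ∃ c : ℕ → ℕ → ℝ,
    (∀ n < b ^ K, (if radInv b n < v then (1 : ℝ) else 0) =
      ∑ k ∈ range (K + 1), c k (n % b ^ k)) ∧
    |c 0 0| ≤ 1 ∧ (∀ k, ∑ a ∈ range (b ^ k), |c k a| ≤ b) ∧
    |v - ∑ k ∈ range (K + 1), (∑ a ∈ range (b ^ k), c k a) / (b : ℝ) ^ k| ≤ 1 / (b : ℝ) ^ K := by
  have hbp : (0 : ℝ) < b := by
    have : 0 < b := by omega
    exact_mod_cast this
  have hb1 : (1 : ℝ) ≤ b := by
    have : 1 ≤ b := by omega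
    exact_mod_cast this
  have hbase : ∀ (x : ℝ), |x| ≤ 1 → ∀ k, ∑ a ∈ range (b ^ k), |if k = 0 then x else 0| ≤ (b : ℝ) := by
    intro x hx k
    rcases Nat.eq_zero_or_pos k with h | h
    · subst h
      simp only [pow_zero, if_true, Finset.sum_range_one]
      linarith
    · have hk : k ≠ 0 := h.ne'
      simp only [if_neg hk, abs_zero, Finset.sum_const_zero]
      exact hbp.le
  induction K with
  | zero =>
    intro v hv0 hv1
    refine ⟨fun k _ => if k = 0 then (if 0 < v then 1 else 0) else 0, ?_, ?_, ?_, ?_⟩
    · intro n hn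
      rw [pow_zero, Nat.lt_one_iff] at hn
      subst hn
      simp [radInv]
    · simp only [if_true]
      split_ifs <;> simp
    · apply hbase
      split_ifs <;> simp
    · simp only [zero_add, Finset.sum_range_one, pow_zero, if_true, div_one]
      split_ifs with h
      · rw [abs_le]; constructor <;> linarith
      · rw [abs_le]; constructor <;> linarith
  | succ K ih =>
    intro v hv0 hv1
    rcases hv1.lt_or_eq with hv | hv
    · -- the main case
      set c0 : ℕ := ⌊(b : ℝ) * v⌋₊ with hc0
      have hbv : 0 ≤ (b : ℝ) * v := by positivity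
      have h1 : (c0 : ℝ) ≤ b * v := Nat.floor_le hbv
      have h2 : (b : ℝ) * v < c0 + 1 := Nat.lt_floor_add_one _
      have h3 : c0 < b := by
        have : (c0 : ℝ) < b := by nlinarith
        exact_mod_cast this
      obtain ⟨c', e1, e0, e2, e3⟩ := ih (b * v - c0) (by linarith) (by linarith)
      have hfilt : ∀ (k : ℕ) (f : ℕ → ℝ), ∑ a ∈ range (b ^ (k + 1)),
          (if a % b = c0 then f (a / b) else 0) = ∑ a ∈ range (b ^ k), f a := by
        intro k f
        rw [← Finset.sum_filter]
        refine Finset.sum_nbij' (fun a => a / b) (fun a => c0 + b * a) ?_ ?_ ?_ ?_ ?_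
        · intro a ha
          rw [Finset.mem_filter, Finset.mem_range] at ha
          rw [Finset.mem_range]
          apply Nat.div_lt_of_lt_mul
          rw [← pow_succ']
          exact ha.1
        · intro a ha
          rw [Finset.mem_range] at ha
          rw [Finset.mem_filter, Finset.mem_range]
          constructor
          · have : b * (a + 1) ≤ b * b ^ k := Nat.mul_le_mul_left b ha
            rw [pow_succ']
            calc c0 + b * a < b + b * a := by omega
              _ = b * (a + 1) := by ring
              _ ≤ _ := this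
          · rw [Nat.add_mul_mod_self_left, Nat.mod_eq_of_lt h3]
        · intro a ha
          rw [Finset.mem_filter] at ha
          rw [← ha.2]
          exact Nat.mod_add_div a b
        · intro a _
          rw [Nat.add_mul_div_left _ _ (by omega), Nat.div_eq_of_lt h3, zero_add]
        · intro a _
          rfl
      have hcount : ∑ a ∈ range b, (if a < c0 then (1 : ℝ) else 0) = c0 := by
        rw [← Finset.sum_filter]
        have : (range b).filter (fun a => a < c0) = range c0 := by
          ext a
          rw [Finset.mem_filter, Finset.mem_range, Finset.mem_range]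
          omega
        rw [this]; simp
      let c : ℕ → ℕ → ℝ := fun k a => match k with
        | 0 => 0
        | k + 1 => (if k = 0 then (if a < c0 then 1 else 0) else 0) +
            (if a % b = c0 then c' k (a / b) else 0)
      have cz : ∀ a, c 0 a = 0 := fun a => rfl
      have cs : ∀ k a, c (k + 1) a = (if k = 0 then (if a < c0 then 1 else 0) else 0) +
            (if a % b = c0 then c' k (a / b) else 0) := fun k a => rfl
      refine ⟨c, ?_, ?_, ?_, ?_⟩
      · intro n hn
        rw [Finset.sum_range_succ', cz (n % b ^ 0), add_zero]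
        have hn' : n / b < b ^ K := by
          apply Nat.div_lt_of_lt_mul
          rw [← pow_succ']
          exact hn
        have ht : ∀ k ∈ range (K + 1), c (k + 1) (n % b ^ (k + 1)) =
            (if k = 0 then (if n % b < c0 then (1 : ℝ) else 0) else 0) +
            (if n % b = c0 then c' k (n / b % b ^ k) else 0) := by
          intro k _
          rw [cs]
          have m1 : n % b ^ (k + 1) % b = n % b :=
            Nat.mod_mod_of_dvd n (dvd_pow_self b (Nat.succ_ne_zero k))
          have m2 : n % b ^ (k + 1) / b = n / b % b ^ k := by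
            rw [pow_succ', Nat.mod_mul_right_div_self]
          rw [m1, m2]
          congr 1
          rcases Nat.eq_zero_or_pos k with h | h
          · subst h
            simp
          · have hk : k ≠ 0 := h.ne'
            simp only [if_neg hk]
        rw [Finset.sum_congr rfl ht, Finset.sum_add_distrib]
        have s1 : ∑ k ∈ range (K + 1), (if k = 0 then (if n % b < c0 then (1 : ℝ) else 0) else 0) =
            if n % b < c0 then (1 : ℝ) else 0 := by
          rw [Finset.sum_ite_eq' (range (K + 1)) 0 (fun _ => if n % b < c0 then (1 : ℝ) else 0)]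
          simp
        have s2 : ∑ k ∈ range (K + 1), (if n % b = c0 then c' k (n / b % b ^ k) else 0) =
            if n % b = c0 then (if radInv b (n / b) < b * v - c0 then (1 : ℝ) else 0) else 0 := by
          by_cases h : n % b = c0
          · simp only [if_pos h]
            rw [e1 (n / b) hn']
          · simp only [if_neg h, Finset.sum_const_zero]
        rw [s1, s2, radInv_rec hb n]
        have r0 := radInv_nonneg b (n / b)
        have r1 := radInv_lt_one hb (n / b)
        have key : (((n % b : ℕ) : ℝ) + radInv b (n / b)) / b < v ↔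
            ((n % b : ℕ) : ℝ) + radInv b (n / b) < b * v := by
          rw [div_lt_iff₀ hbp, mul_comm v]
        rcases lt_trichotomy (n % b) c0 with h | h | h
        · have h' : ((n % b : ℕ) : ℝ) + 1 ≤ c0 := by exact_mod_cast h
          rw [if_pos (key.2 (by linarith)), if_pos h, if_neg h.ne, add_zero]
        · rw [if_neg (show ¬ n % b < c0 by omega), if_pos h, zero_add]
          have h' : ((n % b : ℕ) : ℝ) = c0 := by exact_mod_cast h
          by_cases hh : radInv b (n / b) < b * v - c0
          · rw [if_pos hh, if_pos (key.2 (by linarith))]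
          · rw [if_neg hh, if_neg]
            rw [key]
            linarith
        · have h' : (c0 : ℝ) + 1 ≤ ((n % b : ℕ) : ℝ) := by exact_mod_cast h
          rw [if_neg (show ¬ n % b < c0 by omega), if_neg h.ne', add_zero, if_neg]
          rw [key]
          linarith
      · rw [cz 0]; simp
      · intro k
        rcases k with _ | k
        · simp only [cz, abs_zero, Finset.sum_const_zero]
          exact hbp.le
        · have hle : ∀ a ∈ range (b ^ (k + 1)), |c (k + 1) a| ≤
              (if k = 0 then (if a < c0 then (1 : ℝ) else 0) else 0) +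
              (if a % b = c0 then |c' k (a / b)| else 0) := by
            intro a _
            rw [cs]
            refine (abs_add_le _ _).trans (add_le_add ?_ ?_)
            · split_ifs <;> simp
            · split_ifs <;> simp
          refine (Finset.sum_le_sum hle).trans ?_
          rw [Finset.sum_add_distrib, hfilt k (fun a => |c' k a|)]
          rcases Nat.eq_zero_or_pos k with h | h
          · subst h
            simp only [if_true, zero_add, pow_one, pow_zero, Finset.sum_range_one]
            rw [hcount]
            have : (c0 : ℝ) + 1 ≤ b := by exact_mod_cast h3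
            linarith
          · have hk : k ≠ 0 := h.ne'
            simp only [if_neg hk, Finset.sum_const_zero, zero_add]
            exact e2 k
      · rw [Finset.sum_range_succ']
        have s0 : (∑ a ∈ range (b ^ 0), c 0 a) / (b : ℝ) ^ 0 = 0 := by
          simp only [cz, Finset.sum_const_zero, zero_div]
        rw [s0, add_zero]
        have ht : ∀ k ∈ range (K + 1), (∑ a ∈ range (b ^ (k + 1)), c (k + 1) a) / (b : ℝ) ^ (k + 1) =
            (if k = 0 then (c0 : ℝ) / b else 0) +
              ((∑ a ∈ range (b ^ k), c' k a) / (b : ℝ) ^ k) / b := by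
          intro k _
          simp only [cs]
          rw [Finset.sum_add_distrib, hfilt k (fun a => c' k a), add_div]
          congr 1
          · rcases Nat.eq_zero_or_pos k with h | h
            · subst h
              simp only [if_true, zero_add, pow_one]
              rw [hcount]
            · have hk : k ≠ 0 := h.ne'
              simp only [if_neg hk, Finset.sum_const_zero, zero_div]
          · rw [pow_succ, div_div]
        rw [Finset.sum_congr rfl ht, Finset.sum_add_distrib, ← Finset.sum_div]
        have s1 : ∑ k ∈ range (K + 1), (if k = 0 then (c0 : ℝ) / b else 0) = (c0 : ℝ) / b := by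
          rw [Finset.sum_ite_eq' (range (K + 1)) 0 (fun _ => (c0 : ℝ) / b)]
          simp
        rw [s1]
        set S := ∑ k ∈ range (K + 1), (∑ a ∈ range (b ^ k), c' k a) / (b : ℝ) ^ k
        have e : v - ((c0 : ℝ) / b + S / b) = ((b * v - c0) - S) / b := by
          field_simp
          ring
        rw [e, abs_div, abs_of_pos hbp, pow_succ, ← div_div]
        exact div_le_div_of_nonneg_right e3 hbp.le
    · subst hv
      refine ⟨fun k _ => if k = 0 then 1 else 0, ?_, ?_, ?_, ?_⟩
      · intro n _
        rw [if_pos (radInv_lt_one hb n)]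
        rw [Finset.sum_ite_eq' (range (K + 1 + 1)) 0 (fun _ => (1 : ℝ))]
        simp
      · simp
      · apply hbase
        simp
      · have ht : ∀ k ∈ range (K + 1 + 1), (∑ a ∈ range (b ^ k), (if k = 0 then (1 : ℝ) else 0)) /
            (b : ℝ) ^ k = if k = 0 then 1 else 0 := by
          intro k _
          rcases Nat.eq_zero_or_pos k with h | h
          · subst h; simp
          · have hk : k ≠ 0 := h.ne'
            simp only [if_neg hk, Finset.sum_const_zero, zero_div]
        rw [Finset.sum_congr rfl ht, Finset.sum_ite_eq' (range (K + 1 + 1)) 0 (fun _ => (1 : ℝ))]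
        simp

end HAL

open HAL in
theorem t_HAL : S_HAL := by
  intro b hb K u v hu huv hv
  obtain ⟨c1, f1, -, f2, f3⟩ := HAL.one hb K v (hu.trans huv) hv
  obtain ⟨c2, g1, -, g2, g3⟩ := HAL.one hb K u hu (huv.trans hv)
  have hbp : 0 < b := by omega
  refine ⟨fun k a => c1 k a - c2 k a, ?_, ?_, ?_⟩
  · intro n hn
    have ht : ∀ k ∈ range (K + 1), ∑ a ∈ range (b ^ k), (c1 k a - c2 k a) *
        (if n % b ^ k = a then 1 else 0) = c1 k (n % b ^ k) - c2 k (n % b ^ k) := by
      intro k _
      simp only [mul_ite, mul_one, mul_zero]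
      rw [Finset.sum_ite_eq (range (b ^ k)) (n % b ^ k) (fun a => c1 k a - c2 k a)]
      rw [if_pos (Finset.mem_range.2 (Nat.mod_lt n (pow_pos hbp k)))]
    rw [Finset.sum_congr rfl ht, Finset.sum_sub_distrib, ← f1 n hn, ← g1 n hn]
    by_cases h1 : radInv b n < u
    · have h2 : radInv b n < v := h1.trans_le huv
      rw [if_neg (by intro h; linarith [h.1]), if_pos h2, if_pos h1, sub_self]
    · by_cases h2 : radInv b n < v
      · rw [if_pos ⟨not_lt.1 h1, h2⟩, if_pos h2, if_neg h1, sub_zero]
      · rw [if_neg (fun h => h2 h.2), if_neg h2, if_neg h1, sub_zero]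
  · intro k
    have h := Finset.sum_le_sum (fun a (_ : a ∈ range (b ^ k)) => abs_sub (c1 k a) (c2 k a))
    rw [Finset.sum_add_distrib] at h
    linarith [f2 k, g2 k]
  · have e : ∑ k ∈ range (K + 1), ∑ a ∈ range (b ^ k), (c1 k a - c2 k a) / (b : ℝ) ^ k =
        ∑ k ∈ range (K + 1), (∑ a ∈ range (b ^ k), c1 k a) / (b : ℝ) ^ k -
        ∑ k ∈ range (K + 1), (∑ a ∈ range (b ^ k), c2 k a) / (b : ℝ) ^ k := by
      rw [← Finset.sum_sub_distrib]
      refine Finset.sum_congr rfl fun k _ => ?_
      rw [← Finset.sum_div, Finset.sum_sub_distrib, sub_div]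
    rw [e]
    rw [abs_le] at f3 g3 ⊢
    have e2 : 2 / (b : ℝ) ^ K = 1 / (b : ℝ) ^ K + 1 / (b : ℝ) ^ K := by ring
    rw [e2]
    constructor <;> linarith [f3.1, f3.2, g3.1, g3.2]

end

end Pool.Agent.H484.HH
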